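import Pool.Agent.H752.PL.Stubs
import Pool.Agent.H545R2.KS.Base

/-!
# The machine that looks up a code
-/

set_option autoImplicit false

namespace Pool.Agent.H752.PL

open Pool.Agent.NPC Pool.Agent.H620R2.Gauge Pool.Agent.H752.GE
open Pool.Agent.H583R2 Pool.Agent.H545R2.KS

/-- the action -/
def mcAct (e : ℕ) (s : List Bool) : List Bool :=
  if s.headD false then false :: (List.replicate e true ++ [false])
  else if s.tail.headD false then
    (if s.tail.tail.all id then [false, true, false] else [false, true])
  else if s.tail.tail.headD false then true :: true :: s.tail.tail.tail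
  else if s.tail.tail.tail.headD false then [false, s.tail.tail.tail.tail.headD false]
  else if s.tail.tail.tail.tail.isEmpty then [true, false]
  else if s.tail.tail.tail.tail.headD false then [true] else []

/-- the next content of the memory -/
def mcNext (r c : ℕ) (s a : List Bool) : List Bool :=
  if s.headD false then
    false :: true :: List.replicate ((s.tail.length - 1 + r + 1) ^ c) false
  else if s.tail.headD false then
    (if s.tail.tail.all id then [false, false, true] else false :: true :: incB s.tail.tail)
  else if s.tail.tail.headD false then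
    (if a.isEmpty then [false, false, false, false]
      else false :: false :: false :: true :: a.headD false :: s.tail.tail.tail)
  else if s.tail.tail.tail.headD false then
    false :: false :: true :: incB s.tail.tail.tail.tail.tail
  else false :: false :: false :: false :: a

theorem mcAct_poly (e : ℕ) : PolyTime (mcAct e) := by
  apply polyTime_of_pf
  have h0 : PF (fun s : List Bool => s) := PF.id
  have h1 := PF.tail h0
  have h2 := PF.tail h1
  have h3 := PF.tail h2
  have h4 := PF.tail h3
  have d : ∀ {l : List Bool → List Bool}, PF l → PF (fun s => (l s).headD false) :=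
    fun h => PF.headD h (PF.const false)
  unfold mcAct
  refine PF.ite (d h0) (PF.const _) (PF.ite (d h1) (PF.ite ?_ (PF.const _) (PF.const _))
    (PF.ite (d h2) (PF.cons (PF.const true) (PF.cons (PF.const true) h3))
      (PF.ite (d h3) (PF.cons (PF.const false) (PF.cons (d h4) (PF.const [])))
        (PF.ite (PF.isEmpty h4) (PF.const _) (PF.ite (d h4) (PF.const _) (PF.const _))))))
  exact PF.all (f := fun _ b => id b) h2 PF.snd

theorem mcNext_poly (r c : ℕ) : PolyTime (fun z => mcNext r c (spl z).1 (spl z).2) := by
  apply polyTime_of_pf
  have h0 : PF (fun z : List Bool => (spl z).1) := PF.fst' (PF.spl PF.id)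
  have ha : PF (fun z : List Bool => (spl z).2) := PF.snd' (PF.spl PF.id)
  have h1 := PF.tail h0
  have h2 := PF.tail h1
  have h3 := PF.tail h2
  have h4 := PF.tail h3
  have h5 := PF.tail h4
  have d : ∀ {l : List Bool → List Bool}, PF l → PF (fun s => (l s).headD false) :=
    fun h => PF.headD h (PF.const false)
  have cf : ∀ {l : List Bool → List Bool}, PF l → PF (fun s => false :: l s) :=
    fun h => PF.cons (PF.const false) h
  have ct : ∀ {l : List Bool → List Bool}, PF l → PF (fun s => true :: l s) :=
    fun h => PF.cons (PF.const true) h
  unfold mcNext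
  refine PF.ite (d h0) (cf (ct (PF.replicate (pf_pow (PF.add (PF.add (PF.sub (PF.length h1)
    (PF.const 1)) (PF.const r)) (PF.const 1)) c) (PF.const false))))
    (PF.ite (d h1) (PF.ite ?_ (PF.const _) (cf (ct (PF.incB h2))))
    (PF.ite (d h2) (PF.ite (PF.isEmpty ha) (PF.const _) (cf (cf (cf (ct (PF.cons (d ha) h3))))))
      (PF.ite (d h3) (cf (cf (ct (PF.incB h5)))) (cf (cf (cf (cf ha)))))))
  exact PF.all (f := fun _ b => id b) h2 PF.snd

/-- the machine -/
def mcM (e r c : ℕ) : MAlg where
  act := mcAct e
  act_poly := mcAct_poly e
  next := fun z => mcNext r c (spl z).1 (spl z).2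
  next_poly := mcNext_poly r c

theorem mcM_next (e r c : ℕ) (s a : List Bool) :
    (mcM e r c).next (pairBits s a) = mcNext r c s a := by
  show mcNext r c (spl (pairBits s a)).1 (spl (pairBits s a)).2 = _
  rw [spl_pairBits]

/-! ### the counter -/

theorem mc_inc_val (l : List Bool) : val (incB l) = val l + 1 := by
  induction l with
  | nil => rfl
  | cons b l ih =>
    cases b
    · simp only [incB, val, Bool.toNat_true, Bool.toNat_false]
      omega
    · simp only [incB, val, Bool.toNat_true, Bool.toNat_false]
      omega

theorem mc_val_lt (l : List Bool) : val l < 2 ^ l.length := by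
  induction l with
  | nil => simp [val]
  | cons b l ih =>
    rw [List.length_cons, pow_succ]
    cases b
    · simp only [val, Bool.toNat_false]
      omega
    · simp only [val, Bool.toNat_true]
      omega

theorem mc_val_all {l : List Bool} (h : l.all id = true) : val l + 1 = 2 ^ l.length := by
  induction l with
  | nil => simp [val]
  | cons b l ih =>
    rw [List.all_cons, Bool.and_eq_true] at h
    have h1 := ih h.2
    have h2 : b = true := h.1
    subst h2
    rw [List.length_cons, pow_succ]
    simp only [val, Bool.toNat_true]
    omega

theorem mc_inc_len {l : List Bool} (h : ¬ l.all id = true) : (incB l).length = l.length := by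
  induction l with
  | nil => simp at h
  | cons b l ih =>
    cases b
    · rfl
    · have h1 : ¬ l.all id = true := by
        intro h2
        apply h
        rw [List.all_cons, h2]
        rfl
      simp only [incB, List.length_cons, ih h1]

theorem mc_inc_len' {l : List Bool} (h : l.all id = true) :
    (incB l).length = l.length + 1 := by
  induction l with
  | nil => rfl
  | cons b l ih =>
    rw [List.all_cons, Bool.and_eq_true] at h
    have h1 := ih h.2
    have h2 : b = true := h.1
    subst h2
    simp only [incB, List.length_cons, h1]

theorem mc_val_nall {l : List Bool} (h : ¬ l.all id = true) : val l + 1 < 2 ^ l.length := by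
  have h1 := mc_val_lt (incB l)
  rw [mc_inc_val, mc_inc_len h] at h1
  exact h1

/-- no superfluous zeros -/
def mcC (i : List Bool) : Prop := 2 ^ i.length ≤ 2 * val i + 1

theorem mcC_inc {i : List Bool} (h : mcC i) : mcC (incB i) := by
  unfold mcC at h ⊢
  rw [mc_inc_val]
  by_cases ha : i.all id = true
  · rw [mc_inc_len' ha, pow_succ, ← mc_val_all ha]
    omega
  · rw [mc_inc_len ha]
    omega

theorem mc_val_zero (K : ℕ) : val (List.replicate K false) = 0 := by
  induction K with
  | zero => rfl
  | succ K ih => simp only [List.replicate_succ, val, ih, Bool.toNat_false]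

/-! ### the computation -/

section

variable (e r c : ℕ) (A : Oracle) (x : List Bool)

theorem mc_count {K : ℕ} : ∀ (n : ℕ) (w y : List Bool), w.length = K → val w + n + 1 = 2 ^ K →
    (mcM e r c).Reach A x (false :: true :: w) y →
    (mcM e r c).Reach A x [false, false, true] (y ++ (List.replicate (n + 1) true ++ [false]))
  | 0, w, y, hw, hv, h => by
    have ha : w.all id = true := by
      by_contra ha
      have := mc_val_nall ha
      rw [hw] at this
      omega
    have h1 : (mcM e r c).act (false :: true :: w) = false :: [true, false] := by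
      show (if w.all id then [false, true, false] else [false, true]) = _
      rw [if_pos ha]
    have h2 := h.write h1
    have h3 : (mcM e r c).next (pairBits (false :: true :: w) []) = [false, false, true] := by
      rw [mcM_next]
      show (if w.all id then [false, false, true] else false :: true :: incB w) = _
      rw [if_pos ha]
    rw [h3] at h2
    exact h2
  | n + 1, w, y, hw, hv, h => by
    have ha : ¬ w.all id = true := by
      intro ha
      have := mc_val_all ha
      rw [hw] at this
      omega
    have h1 : (mcM e r c).act (false :: true :: w) = false :: [true] := by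
      show (if w.all id then [false, true, false] else [false, true]) = _
      rw [if_neg ha]
    have h2 := h.write h1
    have h3 : (mcM e r c).next (pairBits (false :: true :: w) []) =
        false :: true :: incB w := by
      rw [mcM_next]
      show (if w.all id then [false, false, true] else false :: true :: incB w) = _
      rw [if_neg ha]
    rw [h3] at h2
    have h4 := mc_count n (incB w) (y ++ [true]) ((mc_inc_len ha).trans hw)
      (by rw [mc_inc_val]; omega) h2
    rw [List.append_assoc] at h4
    exact h4

theorem mc_read {Y : List Bool} (h0 : (mcM e r c).Reach A x [false, false, true] Y) :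
    ∀ n, n ≤ x.length → ∃ i, val i = n ∧
      (mcM e r c).Reach A x (false :: false :: true :: i) (Y ++ x.take n)
  | 0, _ => ⟨[], rfl, by rw [List.take_zero, List.append_nil]; exact h0⟩
  | n + 1, hn => by
    obtain ⟨i, hi, h⟩ := mc_read h0 n (by omega)
    have hx : x[val i]? = some (x[n]'(by omega)) := by
      rw [hi]
      exact List.getElem?_eq_getElem (by omega)
    have h1 : (mcM e r c).act (false :: false :: true :: i) = true :: true :: i := rfl
    have h2 := h.read h1
    rw [hx, mcM_next] at h2
    have h3 : (mcM e r c).Reach A x
      (false :: false :: false :: true :: (x[n]'(by omega)) :: i) (Y ++ x.take n) := h2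
    have h4 : (mcM e r c).act (false :: false :: false :: true :: (x[n]'(by omega)) :: i) =
      false :: [x[n]'(by omega)] := rfl
    have h5 := h3.write h4
    rw [mcM_next] at h5
    refine ⟨incB i, by rw [mc_inc_val, hi], ?_⟩
    rw [List.take_succ_eq_append_getElem (by omega), ← List.append_assoc]
    exact h5

theorem mc_log (m : ℕ) : (Nat.bits m).length - 1 = Nat.log 2 m := by
  rw [Nat.size_eq_bits_len]
  rcases Nat.eq_zero_or_pos m with hm | hm
  · subst hm
    simp
  · have h1 : Nat.size m = Nat.log 2 m + 1 := by
      apply le_antisymm
      · rw [Nat.size_le]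
        exact Nat.lt_pow_succ_log_self (by norm_num) m
      · rw [Nat.succ_le_iff, Nat.lt_size]
        exact Nat.pow_log_le_self 2 (by omega)
    rw [h1]
    rfl

theorem mc_bits_len (m : ℕ) : (Nat.bits m).length ≤ Nat.log 2 m + 1 := by
  have := mc_log m
  omega

theorem mc_main : ∃ Y, Y = codeS (fun _ m => 2 ^ ((Nat.log 2 m + r + 1) ^ c)) e x ∧
    (mcM e r c).Reach A x [false, false, false, false, A Y] [] := by
  refine ⟨_, rfl, ?_⟩
  have h1 : (mcM e r c).act (true :: Nat.bits x.length) =
    false :: (List.replicate e true ++ [false]) := rfl
  have h2 := (MAlg.Reach.start (M := mcM e r c) (A := A) (x := x)).write h1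
  rw [mcM_next] at h2
  have h3 : (mcM e r c).Reach A x (false :: true ::
      List.replicate ((Nat.log 2 x.length + r + 1) ^ c) false)
      ([] ++ (List.replicate e true ++ [false])) := by
    have e1 : mcNext r c (true :: Nat.bits x.length) [] = false :: true ::
        List.replicate ((Nat.log 2 x.length + r + 1) ^ c) false := by
      rw [← mc_log]
      rfl
    rw [← e1]
    exact h2
  have hp : 0 < 2 ^ ((Nat.log 2 x.length + r + 1) ^ c) := by positivity
  have h4 := mc_count e r c A x (2 ^ ((Nat.log 2 x.length + r + 1) ^ c) - 1) _ _
    List.length_replicate (by rw [mc_val_zero]; omega) h3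
  rw [Nat.sub_add_cancel hp] at h4
  obtain ⟨i, hi, h5⟩ := mc_read e r c A x h4 x.length le_rfl
  have hx : x[val i]? = none := by
    rw [hi]
    exact List.getElem?_eq_none le_rfl
  have h6 : (mcM e r c).act (false :: false :: true :: i) = true :: true :: i := rfl
  have h7 := h5.read h6
  rw [hx, mcM_next] at h7
  have h8 : (mcM e r c).Reach A x [false, false, false, false] _ := h7
  have h9 := h8.ask (i := []) rfl
  rw [mcM_next] at h9
  have e2 : ([] ++ (List.replicate e true ++ [false]) ++
      (List.replicate (2 ^ ((Nat.log 2 x.length + r + 1) ^ c)) true ++ [false]) ++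
      List.take x.length x) =
      codeS (fun _ m => 2 ^ ((Nat.log 2 m + r + 1) ^ c)) e x := by
    unfold codeS
    rw [List.take_length]
    simp
  rw [e2] at h9
  exact h9

/-- the possible contents of the memory -/
def mcQ (s : List Bool) : Prop :=
  s = true :: Nat.bits x.length ∨
  (∃ w : List Bool, s = false :: true :: w ∧ w.length = (Nat.log 2 x.length + r + 1) ^ c) ∨
  (∃ i : List Bool, s = false :: false :: true :: i ∧ val i ≤ x.length ∧ mcC i) ∨
  (∃ (b : Bool) (i : List Bool), s = false :: false :: false :: true :: b :: i ∧
    val i < x.length ∧ mcC i) ∨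
  s = [false, false, false, false] ∨ ∃ b, s = [false, false, false, false, b]

theorem mcQ_reach {s y : List Bool} (h : (mcM e r c).Reach A x s y) : mcQ r c x s := by
  induction h with
  | start => exact Or.inl rfl
  | @write s y z _ ha ih =>
    rw [mcM_next]
    rcases ih with rfl | ⟨w, rfl, hw⟩ | ⟨i, rfl, _, _⟩ | ⟨b, i, rfl, hi, hC⟩ | rfl | ⟨b, rfl⟩
    · refine Or.inr (Or.inl ⟨List.replicate ((Nat.log 2 x.length + r + 1) ^ c) false, ?_,
        List.length_replicate⟩)
      rw [← mc_log]
      rfl
    · by_cases hw2 : w.all id = true
      · refine Or.inr (Or.inr (Or.inl ⟨[], ?_, Nat.zero_le _, ?_⟩))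
        · show (if w.all id then [false, false, true] else false :: true :: incB w) = _
          rw [if_pos hw2]
        · unfold mcC
          simp
      · refine Or.inr (Or.inl ⟨incB w, ?_, (mc_inc_len hw2).trans hw⟩)
        show (if w.all id then [false, false, true] else false :: true :: incB w) = _
        rw [if_neg hw2]
    · exact absurd ha (by show ¬ (true :: true :: i = false :: z); simp)
    · exact Or.inr (Or.inr (Or.inl ⟨incB i, rfl, by rw [mc_inc_val]; exact hi, mcC_inc hC⟩))
    · exact absurd ha (by show ¬ ([true, false] = false :: z); simp)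
    · exact absurd ha (by
        show ¬ ((if b then [true] else []) = false :: z)
        cases b <;> simp)
  | @read s y i _ ha ih =>
    rw [mcM_next]
    rcases ih with rfl | ⟨w, rfl, hw⟩ | ⟨i', rfl, hi, hC⟩ | ⟨b, i', rfl, hi, hC⟩ | rfl | ⟨b, rfl⟩
    · exact absurd ha (by
        show ¬ (false :: (List.replicate e true ++ [false]) = true :: true :: i)
        simp)
    · exact absurd ha (by
        show ¬ ((if w.all id then [false, true, false] else [false, true]) = true :: true :: i)
        split_ifs <;> simp)
    · have e1 : i' = i := by
        have : true :: true :: i' = true :: true :: i := ha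
        simpa using this
      subst e1
      rcases Nat.lt_or_ge (val i') x.length with h1 | h1
      · refine Or.inr (Or.inr (Or.inr (Or.inl ⟨x[val i'], i', ?_, h1, hC⟩)))
        rw [List.getElem?_eq_getElem h1]
        rfl
      · refine Or.inr (Or.inr (Or.inr (Or.inr (Or.inl ?_))))
        rw [List.getElem?_eq_none h1]
        rfl
    · exact absurd ha (by show ¬ ([false, b] = true :: true :: i); simp)
    · exact absurd ha (by show ¬ ([true, false] = true :: true :: i); simp)
    · exact absurd ha (by
        show ¬ ((if b then [true] else []) = true :: true :: i)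
        cases b <;> simp)
  | @ask s y i _ ha ih =>
    rw [mcM_next]
    rcases ih with rfl | ⟨w, rfl, hw⟩ | ⟨i', rfl, hi, hC⟩ | ⟨b, i', rfl, hi, hC⟩ | rfl | ⟨b, rfl⟩
    · exact absurd ha (by
        show ¬ (false :: (List.replicate e true ++ [false]) = true :: false :: i)
        simp)
    · exact absurd ha (by
        show ¬ ((if w.all id then [false, true, false] else [false, true]) = true :: false :: i)
        split_ifs <;> simp)
    · exact absurd ha (by show ¬ (true :: true :: i' = true :: false :: i); simp)
    · exact absurd ha (by show ¬ ([false, b] = true :: false :: i); simp)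
    · exact Or.inr (Or.inr (Or.inr (Or.inr (Or.inr ⟨A y, rfl⟩))))
    · exact absurd ha (by
        show ¬ ((if b then [true] else []) = true :: false :: i)
        cases b <;> simp)

theorem mcC_len {i : List Bool} {m : ℕ} (h : mcC i) (hi : val i ≤ m) :
    i.length ≤ Nat.log 2 m + 1 := by
  unfold mcC at h
  have h1 : m < 2 ^ (Nat.log 2 m + 1) := Nat.lt_pow_succ_log_self (by norm_num) m
  have h2 : 2 ^ i.length < 2 ^ (Nat.log 2 m + 2) := by
    rw [pow_succ 2 (Nat.log 2 m + 1)]
    omega
  have h3 := (Nat.pow_lt_pow_iff_right (by norm_num : 1 < 2)).1 h2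
  omega

theorem mcQ_len {s : List Bool} (h : mcQ r c x s) :
    s.length ≤ (Nat.log 2 x.length + (c + r + 7)) ^ (c + r + 7) := by
  have hb : 1 ≤ Nat.log 2 x.length + (c + r + 7) := by omega
  have h1 : Nat.log 2 x.length + (c + r + 7) ≤
      (Nat.log 2 x.length + (c + r + 7)) ^ (c + r + 7) := by
    calc Nat.log 2 x.length + (c + r + 7) = (Nat.log 2 x.length + (c + r + 7)) ^ 1 :=
          (pow_one _).symm
      _ ≤ _ := Nat.pow_le_pow_right hb (by omega)
  have h2 : (Nat.log 2 x.length + r + 1) ^ c + 2 ≤
      (Nat.log 2 x.length + (c + r + 7)) ^ (c + r + 7) := by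
    have h3 : (Nat.log 2 x.length + r + 1) ^ c ≤ (Nat.log 2 x.length + (c + r + 7)) ^ c :=
      Nat.pow_le_pow_left (by omega) c
    have h4 : (Nat.log 2 x.length + (c + r + 7)) ^ (c + 1) ≤
        (Nat.log 2 x.length + (c + r + 7)) ^ (c + r + 7) :=
      Nat.pow_le_pow_right hb (by omega)
    have h5 : 0 < (Nat.log 2 x.length + (c + r + 7)) ^ c := by positivity
    rw [pow_succ] at h4
    nlinarith
  rcases h with rfl | ⟨w, rfl, hw⟩ | ⟨i, rfl, hi, hC⟩ | ⟨b, i, rfl, hi, hC⟩ | rfl | ⟨b, rfl⟩
  · have := mc_bits_len x.length
    rw [List.length_cons]
    omega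
  · rw [List.length_cons, List.length_cons, hw]
    exact h2
  · have := mcC_len hC hi
    simp only [List.length_cons]
    omega
  · have := mcC_len hC hi.le
    simp only [List.length_cons]
    omega
  · simp only [List.length_cons, List.length_nil]
    omega
  · simp only [List.length_cons, List.length_nil]
    omega

end

theorem t_mach : St_mach := by
  intro e r c A L hL
  refine ⟨mcM e r c, c + r + 7, fun x => ⟨fun s y h => mcQ_len r c x (mcQ_reach e r c A x h), ?_⟩⟩
  obtain ⟨Y, hY, h⟩ := mc_main e r c A x
  refine ⟨_, _, h, ?_⟩
  have h1 := hL x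
  rw [← hY] at h1
  have h2 : (mcM e r c).act [false, false, false, false, A Y] =
    if A Y then [true] else [] := rfl
  rw [h2]
  by_cases hA : A Y = true
  · left
    exact ⟨h1.2 hA, by rw [if_pos hA]⟩
  · right
    exact ⟨fun hx => hA (h1.1 hx), by rw [if_neg hA]⟩

end Pool.Agent.H752.PL
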